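import Mathlib

/-!
The Lindelöf number and embeddings of the space of continuous functions with values in `[0,1]` in
spaces of continuous functions with values in a metric space. The proof follows the starting file
of MP_7f09f8_gt (AnyEmbedding), with sets of cardinality at most `|K|` in place of countable sets.
-/

set_option autoImplicit false

open Set Topology

namespace Pool.Agent.Y40.LN

universe u v w z

/-- The space `C_p(Y,[0,1])` of continuous functions with values in the unit interval, with the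
topology of pointwise convergence. -/
abbrev CpUnit (Y : Type v) [TopologicalSpace Y] : Type v :=
  {f : Y → ℝ // Continuous f ∧ ∀ y, f y ∈ Set.Icc (0 : ℝ) 1}

/-- The space `C_p(X,M)` of continuous functions with values in `M`, with the topology of pointwise
convergence. -/
abbrev CpTo (X : Type u) [TopologicalSpace X] (M : Type z) [TopologicalSpace M] : Type (max u z) :=
  {f : X → M // Continuous f}

/-- The zero function. -/
def zeroFun (Y : Type v) [TopologicalSpace Y] : CpUnit Y :=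
  ⟨fun _ => 0, continuous_const, fun _ => ⟨le_rfl, zero_le_one⟩⟩

/-- The Lindelöf number of `X` is at most the cardinality of `K`: every open cover of `X` has a
subcover of cardinality at most `|K|`. -/
def LindelofNumberLE (K : Type w) (X : Type u) [TopologicalSpace X] : Prop :=
  ∀ 𝒰 : Set (Set X), (∀ U ∈ 𝒰, IsOpen U) → ⋃₀ 𝒰 = univ →
    ∃ 𝒱 : Set (Set X), 𝒱 ⊆ 𝒰 ∧ Nonempty (𝒱 ↪ K) ∧ ⋃₀ 𝒱 = univ

/-- `t` has cardinality at most `|K|`. -/
def Sm (K : Type w) {α : Type u} (t : Set α) : Prop := Nonempty (t ↪ K)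

section Sm

variable {K : Type w} {α : Type u} {β : Type v}

theorem Sm.range {γ : Type z} (h : Nonempty (γ ↪ K)) (f : γ → α) : Sm K (Set.range f) := by
  obtain ⟨e⟩ := h
  refine ⟨⟨fun y => e y.2.choose, fun y y' hyy => ?_⟩⟩
  have h1 := e.injective hyy
  apply Subtype.ext
  rw [← y.2.choose_spec, ← y'.2.choose_spec, h1]

theorem Sm.image {s : Set α} (h : Sm K s) (f : α → β) : Sm K (f '' s) := by
  rw [Set.image_eq_range]
  exact Sm.range h _

theorem Sm.mono {s t : Set α} (hst : s ⊆ t) (h : Sm K t) : Sm K s :=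
  h.map fun e => (Set.embeddingOfSubset s t hst).trans e

theorem Sm.countable [Infinite K] {s : Set α} (h : s.Countable) : Sm K s := by
  have : Countable s := h
  obtain ⟨f, hf⟩ := exists_injective_nat s
  exact ⟨(⟨f, hf⟩ : s ↪ ℕ).trans (Infinite.natEmbedding K)⟩

theorem Sm.biUnion [Infinite K] {s : Set α} (hs : Sm K s) {A : α → Set β}
    (hA : ∀ i ∈ s, Sm K (A i)) : Sm K (⋃ i ∈ s, A i) := by
  obtain ⟨e⟩ := hs
  let a : ∀ i : s, A i ↪ K := fun i => Classical.choice (hA i i.2)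
  have h1 : ∀ x : (⋃ i ∈ s, A i : Set β), ∃ i : s, x.1 ∈ A i := by
    intro x
    obtain ⟨i, hi, hx⟩ := Set.mem_iUnion₂.1 x.2
    exact ⟨⟨i, hi⟩, hx⟩
  choose c hc using h1
  obtain ⟨m⟩ : Nonempty (K × K ≃ K) := by
    rw [← Cardinal.eq, Cardinal.mk_prod, Cardinal.lift_id]
    exact Cardinal.mul_eq_self (Cardinal.aleph0_le_mk K)
  refine ⟨⟨fun x => m (e (c x), a (c x) ⟨x.1, hc x⟩), fun x y hxy => ?_⟩⟩
  have h2 := m.injective hxy
  rw [Prod.mk.injEq] at h2
  have h3 : c x = c y := e.injective h2.1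
  have h4 : ∀ (i j : s) (hi : x.1 ∈ A i) (hj : y.1 ∈ A j), i = j →
      a i ⟨x.1, hi⟩ = a j ⟨y.1, hj⟩ → x.1 = y.1 := by
    rintro i j hi hj rfl h
    have h5 := (a i).injective h
    rw [Subtype.mk.injEq] at h5
    exact h5
  exact Subtype.ext (h4 _ _ (hc x) (hc y) h3 h2.2)

theorem Sm.iUnion [Infinite K] {ι : Type z} [Countable ι] {A : ι → Set β}
    (hA : ∀ i, Sm K (A i)) : Sm K (⋃ i, A i) := by
  rw [← Set.biUnion_univ]
  exact Sm.biUnion (Sm.countable Set.countable_univ) fun i _ => hA i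

theorem Sm.union [Infinite K] {s t : Set α} (hs : Sm K s) (ht : Sm K t) : Sm K (s ∪ t) := by
  rw [Set.union_eq_iUnion]
  exact Sm.iUnion fun b => by cases b <;> assumption

theorem Sm.finsets [Infinite K] {V : Set α} (hV : Sm K V) :
    Sm K {W : Finset α | (W : Set α) ⊆ V} := by
  classical
  obtain ⟨e⟩ := hV
  obtain ⟨m⟩ : Nonempty (Finset K ≃ K) := by
    rw [← Cardinal.eq]
    exact Cardinal.mk_finset_of_infinite K
  let F : {W : Finset α | (W : Set α) ⊆ V} → Finset K := fun W =>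
    W.1.attach.image fun i => e ⟨i.1, W.2 i.2⟩
  have hF : ∀ (W W' : {W : Finset α | (W : Set α) ⊆ V}), F W = F W' → W.1 ⊆ W'.1 := by
    intro W W' h i hi
    have h1 : e ⟨i, W.2 hi⟩ ∈ F W :=
      Finset.mem_image.2 ⟨⟨i, hi⟩, Finset.mem_attach _ _, rfl⟩
    rw [h] at h1
    obtain ⟨j, -, hj⟩ := Finset.mem_image.1 h1
    have h2 := congrArg Subtype.val (e.injective hj)
    simp only at h2
    rw [← h2]
    exact j.2
  refine ⟨⟨fun W => m (F W), fun W W' h => ?_⟩⟩
  have h1 := m.injective h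
  exact Subtype.ext (Finset.Subset.antisymm (hF W W' h1) (hF W' W h1.symm))

end Sm

section main

variable {X : Type u} {Y : Type v} [TopologicalSpace X] [TopologicalSpace Y]

omit [TopologicalSpace Y] in
/-- a neighbourhood of a point contains all functions which agree with it on a suitable
finite set -/
theorem exists_finset_agree {p : (Y → ℝ) → Prop} {f : {f : Y → ℝ // p f}}
    {O : Set {f : Y → ℝ // p f}} (hO : O ∈ 𝓝 f) :
    ∃ K : Finset Y, ∀ h : {f : Y → ℝ // p f}, (∀ y ∈ K, h.1 y = f.1 y) → h ∈ O := by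
  rw [nhds_subtype_eq_comap, Filter.mem_comap] at hO
  obtain ⟨t, ht, htO⟩ := hO
  rw [nhds_pi, Filter.mem_pi] at ht
  obtain ⟨J, hJ, W, hW, hWt⟩ := ht
  refine ⟨hJ.toFinset, fun h hh => htO ?_⟩
  apply hWt
  intro y hy
  rw [hh y (by simpa using hy)]
  exact mem_of_mem_nhds (hW y)

/-- The core: a closing-off argument. -/
theorem core {M : Type z} [PseudoMetricSpace M] (K : Type w) [Infinite K]
    (hX : LindelofNumberLE K X) {I : Type v} (g : I → Y → ℝ)
    (hg : ∀ i, Continuous (g i)) (hg0 : ∀ i y, 0 ≤ g i y) (hcov : ∀ y, ∃ i, g i y ≠ 0)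
    (T : CpUnit Y → CpTo X M) (hT : Continuous T)
    (hT0 : Filter.comap T (𝓝 (T (zeroFun Y))) ≤ 𝓝 (zeroFun Y)) :
    ∃ t : Set I, Sm K t ∧ ∀ y, ∃ i ∈ t, g i y ≠ 0 := by
  classical
  by_contra hcon
  push Not at hcon
  let E := CpUnit Y
  let o : E := zeroFun Y
  -- the distance of `T f` from `T 0` at the point `p`
  let D : E → X → ℝ := fun f p => dist ((T f).1 p) ((T o).1 p)
  have hDp : ∀ f : E, Continuous (D f) := fun f => (T f).2.dist (T o).2
  have hev : ∀ p : X, Continuous fun f : CpTo X M => f.1 p := fun p =>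
    (continuous_apply p).comp continuous_subtype_val
  have hevY : ∀ y : Y, Continuous fun f : E => f.1 y := fun y =>
    (continuous_apply y).comp continuous_subtype_val
  have hDf : ∀ p : X, Continuous fun f : E => D f p := fun p =>
    ((hev p).comp hT).dist continuous_const
  have hD0 : ∀ p, D o p = 0 := fun p => by simp [D]
  -- functions vanishing where some `g i`, `i ∈ W`, is large, and at infinity
  let E0 : Finset I → ℕ → Set E := fun W k => {f |
    (∀ y, (∃ i ∈ W, 1 / ((k : ℝ) + 1) ≤ g i y) → f.1 y = 0) ∧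
      ∃ V' : Finset I, ∀ y, (∀ i ∈ V', g i y = 0) → f.1 y = 0}
  have hfac : ∀ r : ℝ, 0 ≤ r → 0 ≤ 1 - min 1 r ∧ 1 - min 1 r ≤ 1 := by
    intro r hr
    have h1 := min_le_left 1 r
    have h2 : 0 ≤ min 1 r := le_min zero_le_one hr
    constructor <;> linarith
  let fs : Finset I → ℕ → E := fun W k =>
    ⟨fun z => ∏ i ∈ W, (1 - min 1 (((k : ℝ) + 1) * g i z)), by
      apply continuous_finsetProd
      intro i _
      have := hg i
      fun_prop, fun z => ⟨Finset.prod_nonneg fun i _ =>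
        (hfac _ (mul_nonneg (by positivity) (hg0 i z))).1,
        Finset.prod_le_one (fun i _ => (hfac _ (mul_nonneg (by positivity) (hg0 i z))).1)
          fun i _ => (hfac _ (mul_nonneg (by positivity) (hg0 i z))).2⟩⟩
  have hfs0 : ∀ (W : Finset I) (k : ℕ) (y : Y), (∃ i ∈ W, 1 / ((k : ℝ) + 1) ≤ g i y) →
      (fs W k).1 y = 0 := by
    rintro W k y ⟨i, hi, hiy⟩
    apply Finset.prod_eq_zero hi
    have hk : (0 : ℝ) < (k : ℝ) + 1 := by positivity
    have : 1 ≤ ((k : ℝ) + 1) * g i y := by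
      rw [div_le_iff₀ hk] at hiy
      linarith
    rw [min_eq_left this]
    ring
  have hfs1 : ∀ (W : Finset I) (k : ℕ) (y : Y), (∀ i ∈ W, g i y = 0) → (fs W k).1 y = 1 := by
    intro W k y hy
    apply Finset.prod_eq_one
    intro i hi
    simp [hy i hi]
  -- `fs W k` is a limit of functions from `E0 W k`
  have hcl : ∀ W k, fs W k ∈ closure (E0 W k) := by
    intro W k
    rw [mem_closure_iff_nhds]
    intro O hO
    obtain ⟨K, hK⟩ := exists_finset_agree hO
    choose iy hiy using hcov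
    let h : Y → ℝ := fun z => ∏ y ∈ K, (1 - min 1 (g (iy y) z / g (iy y) y))
    have hhc : Continuous h := by
      apply continuous_finsetProd
      intro y _
      have := hg (iy y)
      fun_prop
    have hh0 : ∀ z, 0 ≤ h z := fun z => Finset.prod_nonneg fun y _ =>
      (hfac _ (div_nonneg (hg0 _ _) (hg0 _ _))).1
    have hh1 : ∀ z, h z ≤ 1 := fun z => Finset.prod_le_one
      (fun y _ => (hfac _ (div_nonneg (hg0 _ _) (hg0 _ _))).1)
      fun y _ => (hfac _ (div_nonneg (hg0 _ _) (hg0 _ _))).2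
    refine ⟨⟨fun z => (fs W k).1 z * (1 - h z), (fs W k).2.1.mul (continuous_const.sub hhc),
      fun z => ⟨mul_nonneg ((fs W k).2.2 z).1 (sub_nonneg.2 (hh1 z)),
        mul_le_one₀ ((fs W k).2.2 z).2 (sub_nonneg.2 (hh1 z)) (by linarith [hh0 z])⟩⟩,
      hK _ ?_, ?_, K.image iy, ?_⟩
    · intro y hy
      have : h y = 0 := by
        apply Finset.prod_eq_zero hy
        rw [div_self (hiy y)]
        simp
      simp [this]
    · intro y hy
      simp [hfs0 W k y hy]
    · intro y hy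
      have : h y = 1 := by
        apply Finset.prod_eq_one
        intro z hz
        have : g (iy z) y = 0 := hy _ (Finset.mem_image_of_mem iy hz)
        simp [this]
      simp [this]
  -- the small sets of functions
  have hLin : ∀ (W : Finset I) (k j : ℕ), ∃ C : Set E, Sm K C ∧ C ⊆ E0 W k ∧
      ∀ p : X, D (fs W k) p < 1 / ((j : ℝ) + 1) ∨ ∃ f ∈ C, 1 / ((j : ℝ) + 1) / 2 < D f p := by
    intro W k j
    have hj : (0 : ℝ) < 1 / ((j : ℝ) + 1) := Nat.one_div_pos_of_nat
    let U : E0 W k → Set X := fun f => {p | D (fs W k) p < 1 / ((j : ℝ) + 1)} ∪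
      {p | 1 / ((j : ℝ) + 1) / 2 < D f.1 p}
    have hUo : ∀ f, IsOpen (U f) := fun f =>
      (isOpen_lt (hDp _) continuous_const).union (isOpen_lt continuous_const (hDp _))
    have ho : o ∈ E0 W k := ⟨fun _ _ => rfl, ∅, fun _ _ => rfl⟩
    have hUc : ⋃₀ (Set.range U) = (Set.univ : Set X) := by
      rw [Set.eq_univ_iff_forall]
      intro p
      rw [Set.sUnion_range, Set.mem_iUnion]
      by_contra hno
      push Not at hno
      have h1 : ∀ f ∈ E0 W k, D f p ≤ 1 / ((j : ℝ) + 1) / 2 := by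
        intro f hf
        by_contra h2
        exact hno ⟨f, hf⟩ (Or.inr (not_le.1 h2))
      have h2 : D (fs W k) p ≤ 1 / ((j : ℝ) + 1) / 2 :=
        closure_minimal (s := E0 W k) (t := {f : E | D f p ≤ 1 / ((j : ℝ) + 1) / 2}) h1
          (isClosed_le (hDf p) continuous_const) (hcl W k)
      exact hno ⟨o, ho⟩ (Or.inl (lt_of_le_of_lt h2 (half_lt_self hj)))
    obtain ⟨𝒱, h𝒱, hS, hc⟩ := hX (Set.range U) (by rintro _ ⟨f, rfl⟩; exact hUo f) hUc
    have hch : ∀ V : 𝒱, ∃ f : E0 W k, U f = V := fun V => h𝒱 V.2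
    choose c hcc using hch
    refine ⟨{o} ∪ Set.range fun V : 𝒱 => (c V).1,
      (Sm.countable (Set.countable_singleton o)).union (Sm.range hS _), ?_, fun p => ?_⟩
    · rintro f (rfl | ⟨V, rfl⟩)
      · exact ho
      · exact (c V).2
    · have hp : p ∈ ⋃₀ 𝒱 := by rw [hc]; exact Set.mem_univ p
      obtain ⟨V, hV, hpV⟩ := hp
      rw [show V = U (c ⟨V, hV⟩) from (hcc ⟨V, hV⟩).symm] at hpV
      rcases hpV with h | h
      · exact Or.inl h
      · exact Or.inr ⟨(c ⟨V, hV⟩).1, Or.inr ⟨⟨V, hV⟩, rfl⟩, h⟩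
  choose C hCc hCs hCp using hLin
  have hV' : ∀ f : E, ∃ V' : Finset I, (∃ W k, f ∈ E0 W k) →
      ∀ y, (∀ i ∈ V', g i y = 0) → f.1 y = 0 := by
    intro f
    by_cases h : ∃ W k, f ∈ E0 W k
    · obtain ⟨W, k, h1, V', h2⟩ := h
      exact ⟨V', fun _ => h2⟩
    · exact ⟨∅, fun h' => absurd h' h⟩
  choose V' hV' using hV'
  let V0 : Finset I → ℕ → ℕ → Set I := fun W k j => ⋃ f ∈ C W k j, (V' f : Set I)
  have hV0c : ∀ W k j, Sm K (V0 W k j) := fun W k j =>
    (hCc W k j).biUnion fun f _ => Sm.countable (Finset.countable_toSet _)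
  -- closing off
  let step : Set I → Set I := fun V =>
    V ∪ ⋃ W ∈ {W : Finset I | (W : Set I) ⊆ V}, ⋃ q : ℕ × ℕ, V0 W q.1 q.2
  let Vn : ℕ → Set I := fun n => step^[n] ∅
  have hstepc : ∀ V : Set I, Sm K V → Sm K (step V) := fun V hV =>
    hV.union (hV.finsets.biUnion fun W _ => Sm.iUnion fun q => hV0c W q.1 q.2)
  have hVnc : ∀ n, Sm K (Vn n) := by
    intro n
    induction n with
    | zero => exact Sm.countable Set.countable_empty
    | succ n ih =>
      change Sm K (step^[n+1] ∅)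
      rw [Function.iterate_succ_apply']
      exact hstepc _ ih
  have hVnm : Monotone Vn := by
    apply monotone_nat_of_le_succ
    intro n
    change Vn n ⊆ step^[n+1] ∅
    rw [Function.iterate_succ_apply']
    exact Set.subset_union_left
  let V : Set I := ⋃ n, Vn n
  have hVc : Sm K V := Sm.iUnion hVnc
  have hVcl : ∀ (W : Finset I), (W : Set I) ⊆ V → ∀ k j, V0 W k j ⊆ V := by
    intro W hW k j
    have : ∃ n, (W : Set I) ⊆ Vn n := by
      have h1 : ∀ i ∈ W, ∃ n, i ∈ Vn n := fun i hi => Set.mem_iUnion.1 (hW hi)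
      choose! N hN using h1
      refine ⟨W.sup N, fun i hi => hVnm (Finset.le_sup (f := N) hi) (hN i hi)⟩
    obtain ⟨n, hn⟩ := this
    have h2 : V0 W k j ⊆ Vn (n+1) := by
      change V0 W k j ⊆ step^[n+1] ∅
      rw [Function.iterate_succ_apply']
      refine Set.Subset.trans ?_ Set.subset_union_right
      exact Set.subset_iUnion_of_subset W (Set.subset_iUnion_of_subset hn
        (Set.subset_iUnion (fun q : ℕ × ℕ => V0 W q.1 q.2) (k, j)))
    exact h2.trans (Set.subset_iUnion _ _)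
  -- a point where all `g i`, `i ∈ V`, vanish
  obtain ⟨y0, hy0⟩ := hcon V hVc
  -- finitely many points of `X` which control the value at `y0`
  obtain ⟨J, ε, hε, hctrl⟩ : ∃ (J : Finset X) (ε : ℝ), 0 < ε ∧
      ∀ f : E, (∀ x ∈ J, D f x < ε) → f.1 y0 < 1 := by
    have hU : {f : E | f.1 y0 < 1} ∈ 𝓝 o :=
      (isOpen_lt (hevY y0) continuous_const).mem_nhds (by simp [o, zeroFun])
    have hU' := hT0 hU
    rw [Filter.mem_comap] at hU'
    obtain ⟨t0, ht0, ht0U⟩ := hU'
    rw [nhds_subtype_eq_comap, Filter.mem_comap] at ht0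
    obtain ⟨t, ht, htU⟩ := ht0
    rw [nhds_pi, Filter.mem_pi] at ht
    obtain ⟨J, hJ, W, hW, hWt⟩ := ht
    have : ∀ x, ∃ ε > 0, Metric.ball ((T o).1 x) ε ⊆ W x := fun x => Metric.mem_nhds_iff.1 (hW x)
    choose e he heW using this
    obtain ⟨ε, hε, hεle⟩ : ∃ ε > 0, ∀ x ∈ hJ.toFinset, ε ≤ e x := by
      by_cases hne : hJ.toFinset.Nonempty
      · refine ⟨hJ.toFinset.inf' hne e, ?_, fun x hx => Finset.inf'_le _ hx⟩
        rw [gt_iff_lt, Finset.lt_inf'_iff]
        exact fun x _ => he x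
      · exact ⟨1, one_pos, fun x hx => (hne ⟨x, hx⟩).elim⟩
    refine ⟨hJ.toFinset, ε, hε, fun f hf => ?_⟩
    have : f ∈ T ⁻¹' t0 := by
      apply htU
      apply hWt
      intro x hx
      apply heW x
      rw [Metric.mem_ball]
      exact (hf x (by simpa using hx)).trans_le (hεle x (by simpa using hx))
    exact ht0U this
  obtain ⟨j, hj⟩ := exists_nat_one_div_lt hε
  have hj0 : (0 : ℝ) < 1 / ((j : ℝ) + 1) := Nat.one_div_pos_of_nat
  -- a finite set of points of `Y` on which these finitely many functions depend near zero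
  obtain ⟨K', hK⟩ : ∃ K' : Finset Y, ∀ h : E, (∀ y ∈ K', h.1 y = 0) →
      ∀ x ∈ J, D h x < 1 / ((j : ℝ) + 1) / 2 := by
    have hO : {h : E | ∀ x ∈ J, D h x < 1 / ((j : ℝ) + 1) / 2} ∈ 𝓝 o := by
      have : {h : E | ∀ x ∈ J, D h x < 1 / ((j : ℝ) + 1) / 2} =
          ⋂ x ∈ J, {h : E | D h x < 1 / ((j : ℝ) + 1) / 2} := by
        ext h; simp
      rw [this, Filter.biInter_finset_mem]
      intro x _
      refine (isOpen_lt (hDf x) continuous_const).mem_nhds ?_
      change D o x < _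
      rw [hD0 x]
      exact half_pos hj0
    obtain ⟨K', hK⟩ := exists_finset_agree hO
    exact ⟨K', fun h hh => hK h hh⟩
  -- find `W` and `k`
  have hmem : ∀ y : Y, ∃ i, (¬ ∀ i ∈ V, g i y = 0) → (i ∈ V ∧ g i y ≠ 0) := by
    intro y
    by_cases hy : ∀ i ∈ V, g i y = 0
    · obtain ⟨i, _⟩ := hcov y
      exact ⟨i, fun h => absurd hy h⟩
    · have hy' := hy
      push Not at hy'
      obtain ⟨i, hi, hi'⟩ := hy'
      exact ⟨i, fun _ => ⟨hi, hi'⟩⟩
  choose iy hiy using hmem
  let s := K'.filter (fun y => ¬ ∀ i ∈ V, g i y = 0)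
  let W : Finset I := s.image iy
  have hWV : (W : Set I) ⊆ V := by
    intro i hi
    simp only [W, Finset.coe_image, Set.mem_image, Finset.mem_coe] at hi
    obtain ⟨y, hy, rfl⟩ := hi
    exact (hiy y (Finset.mem_filter.1 hy).2).1
  obtain ⟨k, hk⟩ : ∃ k : ℕ, ∀ y ∈ s, 1 / ((k : ℝ) + 1) ≤ g (iy y) y := by
    by_cases hne : s.Nonempty
    · obtain ⟨k, hk⟩ := exists_nat_one_div_lt (ε := s.inf' hne fun y => g (iy y) y) (by
        rw [Finset.lt_inf'_iff]
        intro y hy
        exact lt_of_le_of_ne (hg0 _ _) (Ne.symm (hiy y (Finset.mem_filter.1 hy).2).2))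
      exact ⟨k, fun y hy => hk.le.trans (Finset.inf'_le _ hy)⟩
    · exact ⟨0, fun y hy => (hne ⟨y, hy⟩).elim⟩
  -- all functions of `C W k j` vanish on `K'`
  have hvan : ∀ f ∈ C W k j, ∀ y ∈ K', f.1 y = 0 := by
    intro f hf y hy
    by_cases hyV : ∀ i ∈ V, g i y = 0
    · apply hV' f ⟨W, k, hCs W k j hf⟩
      intro i hi
      apply hyV
      apply hVcl W hWV k j
      exact Set.mem_biUnion hf hi
    · have hys : y ∈ s := Finset.mem_filter.2 ⟨hy, hyV⟩
      exact (hCs W k j hf).1 y ⟨iy y, Finset.mem_image_of_mem _ hys, hk y hys⟩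
  have hfin : ∀ x ∈ J, D (fs W k) x < ε := by
    intro x hx
    rcases hCp W k j x with h | ⟨f, hf, h⟩
    · exact h.trans hj
    · exact absurd (hK f (hvan f hf) x hx) (not_lt.2 h.le)
  have h1 := hctrl (fs W k) hfin
  rw [hfs1 W k y0 (fun i hi => hy0 i (hWV hi))] at h1
  exact lt_irrefl _ h1

end main

/-- If the Lindelöf number of `X` is at most `|K|`, `Y` is completely regular and
`T : C_p(Y,[0,1]) → C_p(X,M)` is continuous with inverse continuous at `T 0`, then the Lindelöf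
number of `Y` is at most `|K|`. -/
theorem main {X : Type u} {Y : Type v} {M : Type z} [TopologicalSpace X] [TopologicalSpace Y]
    [CompletelyRegularSpace Y] [PseudoMetricSpace M] (K : Type w) [Infinite K]
    (hX : LindelofNumberLE K X)
    (T : CpUnit Y → CpTo X M) (hT : Continuous T)
    (hT0 : Filter.comap T (𝓝 (T (zeroFun Y))) ≤ 𝓝 (zeroFun Y)) : LindelofNumberLE K Y := by
  intro 𝒰 hU hcov
  have h1 : ∀ y : Y, ∃ V ∈ 𝒰, ∃ g : Y → ℝ, Continuous g ∧ (∀ z, 0 ≤ g z) ∧ g y ≠ 0 ∧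
      ∀ z, g z ≠ 0 → z ∈ V := by
    intro y
    have hy : y ∈ ⋃₀ 𝒰 := by rw [hcov]; exact Set.mem_univ y
    obtain ⟨V, hV, hyV⟩ := hy
    obtain ⟨f, hf, hfy, hfK⟩ := CompletelyRegularSpace.completely_regular y Vᶜ
      (hU V hV).isClosed_compl (by simpa using hyV)
    refine ⟨V, hV, fun z => 1 - (f z : ℝ), by fun_prop, fun z => ?_, ?_, fun z hz => ?_⟩
    · have := (f z).2.2
      simpa using this
    · simp [hfy]
    · by_contra hzU
      have : f z = 1 := hfK hzU
      simp [this] at hz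
  choose V hV g hgc hg0 hgy hgV using h1
  obtain ⟨t, ht, htc⟩ := core K hX g hgc hg0 (fun y => ⟨y, hgy y⟩) T hT hT0
  refine ⟨V '' t, ?_, ht.image V, ?_⟩
  · rintro _ ⟨y, -, rfl⟩
    exact hV y
  · rw [Set.eq_univ_iff_forall]
    intro y
    obtain ⟨z, hz, hzy⟩ := htc y
    exact ⟨V z, Set.mem_image_of_mem V hz, hgV z y hzy⟩

end Pool.Agent.Y40.LN
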